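import Pool.Agent.TH21.MS.Multi

/-!
# The counting theorem with different functions for the different parameters

Adapted from `Pool.Agent.TH21.MS.Multi` (helper21): the functions may depend on the parameter, the intervals too, and
independence over `ℝ[t]` is assumed instead of lower bounds near infinity.
-/

set_option autoImplicit false

open Set Filter Topology Polynomial

namespace Pool.Agent.TH828.MJ

open Pool.Agent.TH21.MS

section

variable {κ : Type} [Fintype κ] [DecidableEq κ]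

/-- the numbers `π` and `i ^ (s_k) u_(j,k) (x_j)` -/
noncomputable def numJ {n : ℕ} (u : Fin n → κ → ℝ → ℝ) (s : κ → ℕ) (x : Fin n → ℚ) (i : Option (Fin n × κ)) : ℂ :=
  i.elim (Real.pi : ℂ) fun q => Complex.I ^ s q.2 * ((u q.1 q.2 (x q.1) : ℝ) : ℂ)

/-- the exceptional tuples -/
def ExcJ (n d : ℕ) (u : Fin n → κ → ℝ → ℝ) (s : κ → ℕ) (a b : Fin n → ℝ) (A B T : ℝ) : Set (Fin n → ℚ) :=
  {x | (∀ j, (x j : ℝ) ∈ Icc (a j) (b j) ∧ ((x j).den : ℝ) ≤ T) ∧
    ∃ P : MvPolynomial (Option (Fin n × κ)) ℤ, P ≠ 0 ∧ (∀ i, P.degreeOf i ≤ d) ∧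
      (∀ v, |((P.coeff v : ℤ) : ℝ)| ≤ T ^ A) ∧ ‖MvPolynomial.aeval (numJ u s x) P‖ ≤ T ^ (-B)}

theorem value_eqJ {n d : ℕ} (u : Fin n → κ → ℝ → ℝ) (s : κ → ℕ) (x : Fin n → ℚ)
    (P : MvPolynomial (Option (Fin n × κ)) ℤ) (hP : ∀ i, P.degreeOf i ≤ d) :
    MvPolynomial.aeval (numJ u s x) P = ∑ e : (Fin n → κ → Fin (d + 1)) × Fin (d + 1),
      ((P.coeff (sO e) : ℤ) : ℂ) * (Complex.I ^ sig s e *
        ((((∏ j, ∏ k, u j k (x j) ^ (e.1 j k : ℕ)) * Real.pi ^ (e.2 : ℕ) : ℝ)) : ℂ)) := by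
  rw [aeval_eqO _ P hP]
  refine Finset.sum_congr rfl fun e _ => ?_
  congr 1
  have h1 : ∀ j k, numJ u s x (some (j, k)) ^ (e.1 j k : ℕ) =
      Complex.I ^ (s k * (e.1 j k : ℕ)) * (((u j k (x j)) ^ (e.1 j k : ℕ) : ℝ) : ℂ) := by
    intro j k
    simp only [numJ, Option.elim_some]
    rw [mul_pow, ← pow_mul]
    push_cast
    rfl
  simp only [h1]
  have h2 : numJ u s x none = (Real.pi : ℂ) := rfl
  rw [h2]
  simp only [Finset.prod_mul_distrib, Finset.prod_pow_eq_pow_sum, sig]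
  push_cast
  ring

/-- The counting theorem. -/
theorem count3 (n d : ℕ) (hn : 1 ≤ n) (u : Fin n → κ → ℝ → ℝ) (s : κ → ℕ) (a b : Fin n → ℝ)
    (hab : ∀ j, a j < b j) (han : ∀ j k, AnalyticOnNhd ℝ (u j k) (Icc (a j) (b j)))
    (hR : ∀ j, TH818.AP.RIndep (fun (e : κ → Fin (d + 1)) (t : ℝ) => ∏ k, u j k t ^ (e k : ℕ)) (a j) (b j))
    (A β : ℝ) (hA : 0 ≤ A) (hβ : 2 - 2 / (((d : ℝ) + 1) ^ (Fintype.card κ * n + 1) + 1) < β) :
    ∃ B C : ℝ, ∀ T : ℝ, 1 ≤ T → (ExcJ n d u s a b A B T).Finite ∧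
      ((ExcJ n d u s a b A B T).ncard : ℝ) ≤ C * T ^ (2 * ((n : ℝ) - 1) + β) := by
  have hι : 0 < Fintype.card (κ → Fin (d + 1)) := Fintype.card_pos
  have hcard : (Fintype.card (κ → Fin (d + 1))) ^ n * Fintype.card (Fin (d + 1)) =
      (d + 1) ^ (Fintype.card κ * n + 1) := by
    simp only [Fintype.card_pi, Fintype.card_fin, Finset.prod_const, Finset.card_univ]
    rw [← pow_mul, ← pow_succ]
  have hβ' : 2 * (((Fintype.card (κ → Fin (d + 1))) ^ n * Fintype.card (Fin (d + 1)) : ℕ) : ℝ) /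
      ((((Fintype.card (κ → Fin (d + 1))) ^ n * Fintype.card (Fin (d + 1)) : ℕ) : ℝ) + 1) < β := by
    rw [hcard]
    refine lt_of_le_of_lt (le_of_eq ?_) hβ
    have hM0 : (0 : ℝ) < ((d : ℝ) + 1) ^ (Fintype.card κ * n + 1) := by positivity
    push_cast
    field_simp
    ring
  obtain ⟨B, C, hBC⟩ := TH818.AP.multi_gen hι _ (TH818.AP.goodConst_pi d) n hn
    (fun j => fun (e : κ → Fin (d + 1)) (t : ℝ) => ∏ k, u j k t ^ (e k : ℕ)) a b
    hab (fun j e t ht => Finset.analyticAt_fun_prod _ fun k _ => (han j k t ht).fun_pow _)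
    hR A β hA hβ'
  refine ⟨B, C, fun T hT => ?_⟩
  obtain ⟨hfin, hle⟩ := hBC T hT
  have hsub : ExcJ n d u s a b A B T ⊆
      TH818.AP.ExcM (fun j => fun (e : κ → Fin (d + 1)) (t : ℝ) => ∏ k, u j k t ^ (e k : ℕ))
        (fun e : Fin (d + 1) => Real.pi ^ (e : ℕ)) a b A B T := by
    rintro x ⟨hx, P, hP0, hPd, hPc, hPs⟩
    refine ⟨hx, ?_⟩
    rw [value_eqJ u s x P hPd] at hPs
    obtain ⟨e0, he0⟩ := exists_coeff P hP0 hPd
    have hre : |∑ e : (Fin n → κ → Fin (d + 1)) × Fin (d + 1), ((P.coeff (sO e) * reI (sig s e) : ℤ) : ℝ) *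
        ((∏ j, ∏ k, u j k (x j) ^ (e.1 j k : ℕ)) * Real.pi ^ (e.2 : ℕ))| ≤ T ^ (-B) := by
      refine le_trans (le_of_eq ?_) ((Complex.abs_re_le_norm _).trans hPs)
      congr 1
      rw [Complex.re_sum]
      refine Finset.sum_congr rfl fun e _ => ?_
      generalize (∏ j, ∏ k, u j k (x j) ^ (e.1 j k : ℕ)) * Real.pi ^ (e.2 : ℕ) = m
      rw [I_pow]
      simp
      ring
    have him : |∑ e : (Fin n → κ → Fin (d + 1)) × Fin (d + 1), ((P.coeff (sO e) * imI (sig s e) : ℤ) : ℝ) *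
        ((∏ j, ∏ k, u j k (x j) ^ (e.1 j k : ℕ)) * Real.pi ^ (e.2 : ℕ))| ≤ T ^ (-B) := by
      refine le_trans (le_of_eq ?_) ((Complex.abs_im_le_norm _).trans hPs)
      congr 1
      rw [Complex.im_sum]
      refine Finset.sum_congr rfl fun e _ => ?_
      generalize (∏ j, ∏ k, u j k (x j) ^ (e.1 j k : ℕ)) * Real.pi ^ (e.2 : ℕ) = m
      rw [I_pow]
      simp
      ring
    rcases reI_or (sig s e0) with h1 | h1
    · refine ⟨fun e => P.coeff (sO e) * reI (sig s e), ?_, ?_, hre⟩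
      · intro h0
        have := congrFun h0 e0
        simp only [Pi.zero_apply, mul_eq_zero] at this
        exact this.elim he0 h1
      · intro e
        push_cast
        rw [abs_mul]
        have h2 := hPc (sO e)
        have h3 := abs_reI (sig s e)
        calc |((P.coeff (sO e) : ℤ) : ℝ)| * |((reI (sig s e) : ℤ) : ℝ)| ≤ |((P.coeff (sO e) : ℤ) : ℝ)| * 1 := by
              gcongr
          _ ≤ T ^ A := by rw [mul_one]; exact h2
    · refine ⟨fun e => P.coeff (sO e) * imI (sig s e), ?_, ?_, him⟩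
      · intro h0
        have := congrFun h0 e0
        simp only [Pi.zero_apply, mul_eq_zero] at this
        exact this.elim he0 h1
      · intro e
        push_cast
        rw [abs_mul]
        have h2 := hPc (sO e)
        have h3 := abs_imI (sig s e)
        calc |((P.coeff (sO e) : ℤ) : ℝ)| * |((imI (sig s e) : ℤ) : ℝ)| ≤ |((P.coeff (sO e) : ℤ) : ℝ)| * 1 := by
              gcongr
          _ ≤ T ^ A := by rw [mul_one]; exact h2
  refine ⟨hfin.subset hsub, le_trans ?_ hle⟩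
  exact_mod_cast Set.ncard_le_ncard hsub hfin

end

end Pool.Agent.TH828.MJ
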