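import Pool.Agent.TH828.MJ.Ind

/-!
# The lines `Re z = 0` and `Re z = 1/2`

`j` is real on both lines. Independence of `e^(2πi z)`, `Im z`, `j`, `j'`, `j''` on such a line, from the
independence on the imaginary axis and the identity theorem in the upper half-plane.
-/

set_option autoImplicit false

open Set Filter Topology

namespace Pool.Agent.TH828.MJ

open Pool.Agent.TH21.MS

/-- the point `c + i y` -/
noncomputable def zp (c y : ℝ) : ℂ := (c : ℂ) + Complex.I * (y : ℂ)

theorem zp_im (c y : ℝ) : (zp c y).im = y := by simp [zp]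

/-- `c` is `0` or `1/2` up to integers, in the form `e^(2πi c) = s` -/
def Good (c s : ℝ) : Prop := Complex.exp (2 * (Real.pi : ℂ) * Complex.I * (c : ℂ)) = (s : ℂ)

theorem good_ne {c s : ℝ} (h : Good c s) : s ≠ 0 := by
  rintro rfl
  unfold Good at h
  rw [Complex.ofReal_zero] at h
  exact Complex.exp_ne_zero _ h

theorem exp_zp {c s : ℝ} (h : Good c s) (y : ℝ) :
    Complex.exp (2 * (Real.pi : ℂ) * Complex.I * zp c y) = ((s * xx y : ℝ) : ℂ) := by
  unfold zp
  rw [mul_add, Complex.exp_add, h, Complex.ofReal_mul]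
  congr 1
  unfold xx
  rw [Complex.ofReal_exp]
  congr 1
  push_cast
  linear_combination (2 * (Real.pi : ℂ) * y) * Complex.I_sq

theorem jj_zp_im {c s : ℝ} (h : Good c s) (y : ℝ) : (jj (zp c y)).im = 0 := by
  have h4 : E4 (zp c y) = ((1 + 240 * ((s * xx y) * A3 ℝ (s * xx y)) : ℝ) : ℂ) := by
    rw [E4_q, exp_zp h, A3_ofReal]
    push_cast
    ring
  have h6 : E6 (zp c y) = ((1 - 504 * ((s * xx y) * A5 ℝ (s * xx y)) : ℝ) : ℂ) := by
    rw [E6_q, exp_zp h, A5_ofReal]
    push_cast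
    ring
  unfold jj
  rw [h4, h6]
  generalize (1 + 240 * ((s * xx y) * A3 ℝ (s * xx y)) : ℝ) = u
  generalize (1 - 504 * ((s * xx y) * A5 ℝ (s * xx y)) : ℝ) = v
  have h7 : (1728 * (u : ℂ) ^ 3 / ((u : ℂ) ^ 3 - (v : ℂ) ^ 2)) = ((1728 * u ^ 3 / (u ^ 3 - v ^ 2) : ℝ) : ℂ) := by
    push_cast
    rfl
  rw [h7, Complex.ofReal_im]

/-- `j` on the line -/
noncomputable def h0 (c y : ℝ) : ℝ := (jj (zp c y)).re

/-- the derivative with respect to `y` -/
noncomputable def h1 (c : ℝ) : ℝ → ℝ := deriv (h0 c)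

/-- the second derivative with respect to `y` -/
noncomputable def h2 (c : ℝ) : ℝ → ℝ := deriv (h1 c)

theorem jj_zp {c s : ℝ} (h : Good c s) (y : ℝ) : jj (zp c y) = ((h0 c y : ℝ) : ℂ) := by
  apply Complex.ext
  · rw [Complex.ofReal_re]
    rfl
  · rw [Complex.ofReal_im]
    exact jj_zp_im h y

theorem h0_an (c : ℝ) : AnalyticOnNhd ℝ (h0 c) (Ioi 0) := by
  intro y hy
  have hy' : 0 < (zp c y).im := by rw [zp_im]; exact hy
  have e1 : AnalyticAt ℝ jj (zp c y) := (jj_an _ hy').restrictScalars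
  have e2 : AnalyticAt ℝ (fun y : ℝ => zp c y) y := by
    unfold zp
    exact analyticAt_const.add (analyticAt_const.mul (Complex.ofRealCLM.analyticAt y))
  have e3 : AnalyticAt ℝ (fun y : ℝ => jj (zp c y)) y := AnalyticAt.fun_comp e1 e2
  exact (Complex.reCLM.analyticAt _).comp e3

theorem h1_an (c : ℝ) : AnalyticOnNhd ℝ (h1 c) (Ioi 0) := (h0_an c).deriv

theorem h2_an (c : ℝ) : AnalyticOnNhd ℝ (h2 c) (Ioi 0) := (h1_an c).deriv

theorem line_deriv (F : ℂ → ℂ) (c y : ℝ) (hF : AnalyticAt ℂ F (zp c y)) :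
    HasDerivAt (fun t : ℝ => F (zp c t)) (deriv F (zp c y) * Complex.I) y := by
  have e1 : HasDerivAt F (deriv F (zp c y)) (zp c y) := hF.differentiableAt.hasDerivAt
  have e2 : HasDerivAt (fun w : ℂ => (c : ℂ) + Complex.I * w) Complex.I (y : ℂ) := by
    simpa using ((hasDerivAt_id (y : ℂ)).const_mul Complex.I).const_add (c : ℂ)
  have e3 : HasDerivAt (fun w : ℂ => F ((c : ℂ) + Complex.I * w)) (deriv F (zp c y) * Complex.I) (y : ℂ) :=
    HasDerivAt.comp (y : ℂ) (h₂ := F) (h := fun w : ℂ => (c : ℂ) + Complex.I * w) e1 e2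
  exact e3.comp_ofReal

theorem jj_d1 {c s : ℝ} (h : Good c s) (y : ℝ) (hy : 0 < y) :
    deriv jj (zp c y) = -Complex.I * ((h1 c y : ℝ) : ℂ) := by
  have hy' : 0 < (zp c y).im := by rw [zp_im]; exact hy
  have e1 := line_deriv jj c y (jj_an _ hy')
  have e2 : HasDerivAt (fun t : ℝ => ((h0 c t : ℝ) : ℂ)) ((h1 c y : ℝ) : ℂ) y :=
    ((h0_an c y hy).differentiableAt.hasDerivAt).ofReal_comp
  have e3 : (fun t : ℝ => jj (zp c t)) = fun t : ℝ => ((h0 c t : ℝ) : ℂ) := funext (jj_zp h)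
  rw [e3] at e1
  have e4 := e1.unique e2
  linear_combination (-Complex.I) * e4 + deriv jj (zp c y) * Complex.I_sq

theorem jj_d2 {c s : ℝ} (h : Good c s) (y : ℝ) (hy : 0 < y) :
    deriv (deriv jj) (zp c y) = -((h2 c y : ℝ) : ℂ) := by
  have hy' : 0 < (zp c y).im := by rw [zp_im]; exact hy
  have e1 := line_deriv (deriv jj) c y (jj_an _ hy').deriv
  have e2 : HasDerivAt (fun t : ℝ => -Complex.I * ((h1 c t : ℝ) : ℂ)) (-Complex.I * ((h2 c y : ℝ) : ℂ)) y :=
    (((h1_an c y hy).differentiableAt.hasDerivAt).ofReal_comp).const_mul _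
  have e3 : (fun t : ℝ => deriv jj (zp c t)) =ᶠ[𝓝 y] fun t : ℝ => -Complex.I * ((h1 c t : ℝ) : ℂ) := by
    filter_upwards [eventually_gt_nhds hy] with t ht using jj_d1 h t ht
  have e4 := (e1.congr_of_eventuallyEq e3.symm).unique e2
  linear_combination (-Complex.I) * e4 + (deriv (deriv jj) (zp c y) + (h2 c y : ℂ)) * Complex.I_sq

/-- `x`, `y`, `g0`, `g1`, `g2` -/
noncomputable def wI (y : ℝ) : Fin 5 → ℝ := ![xx y, y, g0 y, g1 y, g2 y]

/-- independence on the imaginary axis -/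
theorem mahlerY (P : MvPolynomial (Fin 5) ℝ) (h : ∀ y : ℝ, 0 < y → MvPolynomial.eval (wI y) P = 0) : P = 0 := by
  have hpi := Real.pi_pos
  set f : Fin 5 → MvPolynomial (Fin 5) ℝ := ![MvPolynomial.X 0,
    MvPolynomial.C (-1 / (2 * Real.pi)) * MvPolynomial.X 1, MvPolynomial.X 2,
    MvPolynomial.C (-(2 * Real.pi)) * MvPolynomial.X 3, MvPolynomial.C ((2 * Real.pi) ^ 2) * MvPolynomial.X 4] with hf
  have hev : ∀ v : Fin 5 → ℝ, MvPolynomial.eval v (MvPolynomial.bind₁ f P) =
      MvPolynomial.eval (fun i => MvPolynomial.eval v (f i)) P := by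
    intro v
    have := MvPolynomial.aeval_bind₁ (R := ℝ) v f P
    simpa only [aeval_eval] using this
  have h0 : MvPolynomial.bind₁ f P = 0 := by
    refine mahlerMv _ fun x hx => ?_
    rw [hev]
    have hlog := Real.log_neg hx.1 hx.2
    set y : ℝ := -Real.log x / (2 * Real.pi) with hy
    have hy0 : 0 < y := div_pos (by linarith) (by positivity)
    have hxx : xx y = x := by
      unfold xx
      rw [hy, ← Real.exp_log hx.1]
      congr 1
      rw [Real.exp_log hx.1]
      field_simp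
    rw [← h y hy0]
    congr 2
    funext i
    fin_cases i
    · show MvPolynomial.eval (five x) (MvPolynomial.X 0) = xx y
      rw [MvPolynomial.eval_X, hxx]
      rfl
    · show MvPolynomial.eval (five x) (MvPolynomial.C (-1 / (2 * Real.pi)) * MvPolynomial.X 1) = y
      rw [map_mul, MvPolynomial.eval_C, MvPolynomial.eval_X]
      show -1 / (2 * Real.pi) * Real.log x = y
      rw [hy]
      ring
    · show MvPolynomial.eval (five x) (MvPolynomial.X 2) = g0 y
      rw [MvPolynomial.eval_X]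
      show G0 x / x = G0 (xx y) / xx y
      rw [hxx]
    · show MvPolynomial.eval (five x) (MvPolynomial.C (-(2 * Real.pi)) * MvPolynomial.X 3) = g1 y
      rw [map_mul, MvPolynomial.eval_C, MvPolynomial.eval_X]
      show -(2 * Real.pi) * (-(G1 x / x) / (2 * Real.pi)) = G1 (xx y) / xx y
      rw [hxx]
      field_simp
    · show MvPolynomial.eval (five x) (MvPolynomial.C ((2 * Real.pi) ^ 2) * MvPolynomial.X 4) = g2 y
      rw [map_mul, MvPolynomial.eval_C, MvPolynomial.eval_X]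
      show (2 * Real.pi) ^ 2 * ((G2 x / x) / (2 * Real.pi) ^ 2) = G2 (xx y) / xx y
      rw [hxx]
      field_simp
  refine MvPolynomial.funext fun v => ?_
  have h1 := hev ![v 0, -(2 * Real.pi) * v 1, v 2, v 3 / (-(2 * Real.pi)), v 4 / (2 * Real.pi) ^ 2]
  rw [h0, map_zero] at h1
  rw [map_zero, h1]
  congr 2
  funext i
  fin_cases i
  · simp [hf]
  · simp only [hf]
    show v 1 = MvPolynomial.eval _ (MvPolynomial.C (-1 / (2 * Real.pi)) * MvPolynomial.X 1)
    rw [map_mul, MvPolynomial.eval_C, MvPolynomial.eval_X]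
    show v 1 = -1 / (2 * Real.pi) * (-(2 * Real.pi) * v 1)
    field_simp
  · simp [hf]
  · simp only [hf]
    show v 3 = MvPolynomial.eval _ (MvPolynomial.C (-(2 * Real.pi)) * MvPolynomial.X 3)
    rw [map_mul, MvPolynomial.eval_C, MvPolynomial.eval_X]
    show v 3 = -(2 * Real.pi) * (v 3 / (-(2 * Real.pi)))
    field_simp
  · simp only [hf]
    show v 4 = MvPolynomial.eval _ (MvPolynomial.C ((2 * Real.pi) ^ 2) * MvPolynomial.X 4)
    rw [map_mul, MvPolynomial.eval_C, MvPolynomial.eval_X]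
    show v 4 = (2 * Real.pi) ^ 2 * (v 4 / (2 * Real.pi) ^ 2)
    field_simp

end Pool.Agent.TH828.MJ
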