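import Pool.Agent.TH828.MJ.Half

/-!
# Independence on the lines `Re z = 0` and `Re z = 1/2`
-/

set_option autoImplicit false

open Set Filter Topology Polynomial

namespace Pool.Agent.TH828.MJ

open Pool.Agent.TH21.MS

/-- real part of the coefficients, up to a real linear functional `φ` -/
noncomputable def part (φ : ℂ → ℝ) (Q : MvPolynomial (Fin 5) ℂ) : MvPolynomial (Fin 5) ℝ :=
  ∑ u ∈ Q.support, MvPolynomial.monomial u (φ (Q.coeff u))

theorem part_coeff (φ : ℂ → ℝ) (hφ : φ 0 = 0) (Q : MvPolynomial (Fin 5) ℂ) (u : Fin 5 →₀ ℕ) :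
    (part φ Q).coeff u = φ (Q.coeff u) := by
  classical
  unfold part
  rw [MvPolynomial.coeff_sum]
  by_cases hu : u ∈ Q.support
  · rw [Finset.sum_eq_single u]
    · rw [MvPolynomial.coeff_monomial, if_pos rfl]
    · intro b _ hb
      rw [MvPolynomial.coeff_monomial, if_neg hb]
    · intro h
      exact absurd hu h
  · rw [MvPolynomial.notMem_support_iff.1 hu, hφ]
    refine Finset.sum_eq_zero fun b hb => ?_
    rw [MvPolynomial.coeff_monomial, if_neg]
    rintro rfl
    exact hu hb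

theorem part_eval (φ : ℂ → ℝ) (hφ : ∀ (z : ℂ) (r : ℝ), φ (z * (r : ℂ)) = φ z * r)
    (hφs : ∀ (s : Finset (Fin 5 →₀ ℕ)) (g : (Fin 5 →₀ ℕ) → ℂ), φ (∑ u ∈ s, g u) = ∑ u ∈ s, φ (g u))
    (Q : MvPolynomial (Fin 5) ℂ) (v : Fin 5 → ℝ) :
    MvPolynomial.eval v (part φ Q) = φ (MvPolynomial.eval (fun i => ((v i : ℝ) : ℂ)) Q) := by
  unfold part
  rw [map_sum, MvPolynomial.eval_eq', hφs]
  refine Finset.sum_congr rfl fun u _ => ?_
  have h1 : (∏ i, ((v i : ℝ) : ℂ) ^ u i) = ((∏ i, v i ^ u i : ℝ) : ℂ) := by push_cast; rfl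
  rw [h1, hφ, MvPolynomial.eval_monomial, Finsupp.prod_fintype _ _ (by simp)]

/-- independence on the imaginary axis, complex coefficients -/
theorem mahlerC (Q : MvPolynomial (Fin 5) ℂ)
    (h : ∀ y : ℝ, 0 < y → MvPolynomial.eval (fun i => ((wI y i : ℝ) : ℂ)) Q = 0) : Q = 0 := by
  have hre : part Complex.re Q = 0 := mahlerY _ fun y hy => by
    rw [part_eval Complex.re (fun z r => Complex.re_mul_ofReal z r) (fun s g => Complex.re_sum s g), h y hy,
      Complex.zero_re]
  have him : part Complex.im Q = 0 := mahlerY _ fun y hy => by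
    rw [part_eval Complex.im (fun z r => Complex.im_mul_ofReal z r) (fun s g => Complex.im_sum s g), h y hy,
      Complex.zero_im]
  ext u
  rw [MvPolynomial.coeff_zero]
  apply Complex.ext
  · have := congrArg (MvPolynomial.coeff u) hre
    rw [part_coeff _ Complex.zero_re, MvPolynomial.coeff_zero] at this
    rw [this, Complex.zero_re]
  · have := congrArg (MvPolynomial.coeff u) him
    rw [part_coeff _ Complex.zero_im, MvPolynomial.coeff_zero] at this
    rw [this, Complex.zero_im]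

/-- the five functions on the upper half-plane -/
noncomputable def VV (c : ℝ) (z : ℂ) : Fin 5 → ℂ :=
  ![Complex.exp (2 * (Real.pi : ℂ) * Complex.I * z), (z - (c : ℂ)) / Complex.I, jj z, Complex.I * deriv jj z,
    -deriv (deriv jj) z]

/-- the five functions on the line -/
noncomputable def wl (c s y : ℝ) : Fin 5 → ℝ := ![s * xx y, y, h0 c y, h1 c y, h2 c y]

theorem VV_line {c s : ℝ} (h : Good c s) (y : ℝ) (hy : 0 < y) (i : Fin 5) :
    VV c (zp c y) i = ((wl c s y i : ℝ) : ℂ) := by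
  fin_cases i
  · exact exp_zp h y
  · show (zp c y - (c : ℂ)) / Complex.I = ((y : ℝ) : ℂ)
    unfold zp
    rw [add_sub_cancel_left, mul_div_cancel_left₀ _ Complex.I_ne_zero]
  · exact jj_zp h y
  · show Complex.I * deriv jj (zp c y) = ((h1 c y : ℝ) : ℂ)
    rw [jj_d1 h y hy]
    linear_combination (-(h1 c y : ℂ)) * Complex.I_sq
  · show -deriv (deriv jj) (zp c y) = ((h2 c y : ℝ) : ℂ)
    rw [jj_d2 h y hy, neg_neg]

theorem VV_an (c : ℝ) (z : ℂ) (hz : 0 < z.im) (i : Fin 5) : AnalyticAt ℂ (fun z => VV c z i) z := by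
  fin_cases i
  · have h1 : AnalyticAt ℂ (fun z : ℂ => 2 * (Real.pi : ℂ) * Complex.I * z) z := analyticAt_const.mul analyticAt_id
    exact h1.cexp
  · exact (analyticAt_id.sub analyticAt_const).div analyticAt_const Complex.I_ne_zero
  · exact jj_an z hz
  · exact analyticAt_const.mul (jj_an z hz).deriv
  · exact (jj_an z hz).deriv.deriv.neg

theorem indep_line {c s : ℝ} (h : Good c s) (P : MvPolynomial (Fin 5) ℝ) (y0 : ℝ) (hy0 : 0 < y0)
    (hfr : ∃ᶠ y in 𝓝[≠] y0, MvPolynomial.eval (wl c s y) P = 0) : P = 0 := by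
  have hpre : IsPreconnected {z : ℂ | 0 < z.im} := (convex_halfSpace_im_gt 0).isPreconnected
  have han : AnalyticOnNhd ℂ (fun z => MvPolynomial.aeval (VV c z) P) {z : ℂ | 0 < z.im} := by
    intro z hz
    exact AnalyticAt.aeval_mvPolynomial (𝕜 := ℂ) (f := fun z i => VV c z i) (z := z) (fun i => VV_an c z hz i) P
  have hline : ∀ y : ℝ, 0 < y → MvPolynomial.eval (wl c s y) P = 0 →
      MvPolynomial.aeval (VV c (zp c y)) P = 0 := by
    intro y hy h0
    have h1 : VV c (zp c y) = (algebraMap ℝ ℂ) ∘ (wl c s y) := funext fun i => VV_line h y hy i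
    rw [h1, MvPolynomial.aeval_algebraMap_apply, aeval_eval, h0, map_zero]
  have hfr2 : ∃ᶠ z in 𝓝[≠] (zp c y0), MvPolynomial.aeval (VV c z) P = 0 := by
    have ht : Tendsto (fun y : ℝ => zp c y) (𝓝[≠] y0) (𝓝[≠] (zp c y0)) := by
      refine tendsto_nhdsWithin_iff.2 ⟨?_, ?_⟩
      · have hc : Continuous (fun y : ℝ => zp c y) := by
          unfold zp
          fun_prop
        exact (hc.tendsto y0).mono_left nhdsWithin_le_nhds
      · filter_upwards [self_mem_nhdsWithin] with y h2 h3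
        apply h2
        have h4 := congrArg Complex.im h3
        rw [zp_im, zp_im] at h4
        exact h4
    refine ht.frequently ?_
    have hpos : ∀ᶠ y in 𝓝[≠] y0, 0 < y := (eventually_gt_nhds hy0).filter_mono nhdsWithin_le_nhds
    exact (hfr.and_eventually hpos).mono fun y hy => hline y hy.2 hy.1
  have hzero := han.eqOn_zero_of_preconnected_of_frequently_eq_zero hpre
    (show zp c y0 ∈ {z : ℂ | 0 < z.im} by show 0 < (zp c y0).im; rw [zp_im]; exact hy0) hfr2
  -- the imaginary axis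
  set f : Fin 5 → MvPolynomial (Fin 5) ℂ := ![MvPolynomial.X 0,
    MvPolynomial.X 1 + MvPolynomial.C ((c : ℂ) * Complex.I), MvPolynomial.X 2, MvPolynomial.X 3,
    MvPolynomial.X 4] with hf
  set PC : MvPolynomial (Fin 5) ℂ := MvPolynomial.map (algebraMap ℝ ℂ) P with hPC
  have hev : ∀ v : Fin 5 → ℂ, MvPolynomial.eval v (MvPolynomial.bind₁ f PC) =
      MvPolynomial.eval (fun i => MvPolynomial.eval v (f i)) PC := by
    intro v
    have := MvPolynomial.aeval_bind₁ (R := ℂ) v f PC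
    exact this
  have hQ : MvPolynomial.bind₁ f PC = 0 := by
    refine mahlerC _ fun y hy => ?_
    rw [hev, hPC, MvPolynomial.eval_map, ← MvPolynomial.aeval_def]
    have h1 := hzero (show zp 0 y ∈ {z : ℂ | 0 < z.im} by show 0 < (zp 0 y).im; rw [zp_im]; exact hy)
    have h2 : (fun i => MvPolynomial.eval (fun i => ((wI y i : ℝ) : ℂ)) (f i)) = VV c (zp 0 y) := by
      have hz : zp 0 y = Complex.I * (y : ℂ) := by simp [zp]
      funext i
      fin_cases i
      · show MvPolynomial.eval _ (MvPolynomial.X 0) = Complex.exp (2 * (Real.pi : ℂ) * Complex.I * zp 0 y)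
        rw [MvPolynomial.eval_X, hz, exp_I]
        rfl
      · show MvPolynomial.eval _ (MvPolynomial.X 1 + MvPolynomial.C ((c : ℂ) * Complex.I)) =
          (zp 0 y - (c : ℂ)) / Complex.I
        rw [map_add, MvPolynomial.eval_C, MvPolynomial.eval_X, hz]
        show ((y : ℝ) : ℂ) + (c : ℂ) * Complex.I = (Complex.I * (y : ℂ) - (c : ℂ)) / Complex.I
        rw [eq_div_iff Complex.I_ne_zero]
        linear_combination (c : ℂ) * Complex.I_sq
      · show MvPolynomial.eval _ (MvPolynomial.X 2) = jj (zp 0 y)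
        rw [MvPolynomial.eval_X, hz, jj_I]
        rfl
      · show MvPolynomial.eval _ (MvPolynomial.X 3) = Complex.I * deriv jj (zp 0 y)
        rw [MvPolynomial.eval_X, hz, jj_deriv y hy]
        show ((g1 y : ℝ) : ℂ) = _
        linear_combination ((g1 y : ℝ) : ℂ) * Complex.I_sq
      · show MvPolynomial.eval _ (MvPolynomial.X 4) = -deriv (deriv jj) (zp 0 y)
        rw [MvPolynomial.eval_X, hz, jj_deriv2 y hy, neg_neg]
        rfl
    rw [h2]
    exact h1
  have hPC0 : PC = 0 := by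
    refine MvPolynomial.funext fun v => ?_
    have h1 := hev ![v 0, v 1 - (c : ℂ) * Complex.I, v 2, v 3, v 4]
    rw [hQ, map_zero] at h1
    rw [map_zero, h1]
    congr 2
    funext i
    fin_cases i
    · simp [hf]
    · simp [hf]
    · simp [hf]
    · simp [hf]
    · simp [hf]
  exact MvPolynomial.map_injective _ (algebraMap ℝ ℂ).injective (by rw [← hPC, hPC0, map_zero])

/-- the functions `e^(2πi z)`, `y`, and the derivatives of `j` along the line -/
noncomputable def ul (c s : ℝ) (y : ℝ → ℝ) : Fin 4 → ℝ → ℝ :=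
  ![fun t => s * xx (y t), y, fun t => h1 c (y t), fun t => h2 c (y t)]

/-- the relation as a polynomial in the five functions -/
noncomputable def QL {d : ℕ} (R : (Fin 4 → Fin (d + 1)) → ℝ[X]) : MvPolynomial (Fin 5) ℝ :=
  ∑ e, (Polynomial.aeval (MvPolynomial.X 2 : MvPolynomial (Fin 5) ℝ) (R e)) *
    (MvPolynomial.X 0 ^ (e 0 : ℕ) * MvPolynomial.X 1 ^ (e 1 : ℕ) * MvPolynomial.X 3 ^ (e 2 : ℕ) *
     MvPolynomial.X 4 ^ (e 3 : ℕ))

theorem QL_eval {d : ℕ} (R : (Fin 4 → Fin (d + 1)) → ℝ[X]) (v : Fin 5 → ℝ) :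
    MvPolynomial.eval v (QL R) = ∑ e, (R e).eval (v 2) *
      (v 0 ^ (e 0 : ℕ) * v 1 ^ (e 1 : ℕ) * v 3 ^ (e 2 : ℕ) * v 4 ^ (e 3 : ℕ)) := by
  unfold QL
  rw [map_sum]
  refine Finset.sum_congr rfl fun e _ => ?_
  have h1 : MvPolynomial.eval v (Polynomial.aeval (MvPolynomial.X 2 : MvPolynomial (Fin 5) ℝ) (R e)) =
      (R e).eval (v 2) := by
    have h2 : MvPolynomial.aeval v (Polynomial.aeval (MvPolynomial.X 2 : MvPolynomial (Fin 5) ℝ) (R e)) =
        Polynomial.aeval (v 2) (R e) := by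
      rw [← Polynomial.aeval_algHom_apply, MvPolynomial.aeval_X]
    rw [aeval_eval, Polynomial.coe_aeval_eq_eval] at h2
    exact h2
  simp only [map_mul, map_pow, h1, MvPolynomial.eval_X]

theorem rindL {c s : ℝ} (h : Good c s) (ψ : ℝ[X]) (hψ : 0 < ψ.natDegree) (a b : ℝ) (hab : a < b) (y : ℝ → ℝ)
    (hy : AnalyticOnNhd ℝ y (Icc a b)) (hpos : ∀ t ∈ Icc a b, 0 < y t)
    (hj : ∀ t ∈ Icc a b, ψ.eval (h0 c (y t)) = t) (d : ℕ) :
    TH818.AP.RIndep (fun (e : Fin 4 → Fin (d + 1)) (t : ℝ) => ∏ k, ul c s y k t ^ (e k : ℕ)) a b := by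
  classical
  intro p hp
  obtain ⟨R, hR⟩ : ∃ R : (Fin 4 → Fin (d + 1)) → ℝ[X], ∀ e, R e = (p e).comp ψ :=
    ⟨fun e => (p e).comp ψ, fun _ => rfl⟩
  have hval : ∀ t ∈ Icc a b, MvPolynomial.eval (wl c s (y t)) (QL R) = 0 := by
    intro t ht
    rw [QL_eval, ← hp t ht]
    refine Finset.sum_congr rfl fun e _ => ?_
    show _ = (p e).eval t * ∏ k, ul c s y k t ^ (e k : ℕ)
    have e2 : wl c s (y t) 2 = h0 c (y t) := rfl
    rw [e2, hR, eval_comp, hj t ht, Fin.prod_univ_four]
    rfl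
  obtain ⟨t0, ht0⟩ : ∃ t0, t0 ∈ Ioo a b := ⟨(a + b) / 2, by constructor <;> linarith⟩
  have ht0' : t0 ∈ Icc a b := Ioo_subset_Icc_self ht0
  have hmem : ∀ᶠ t in 𝓝[≠] t0, t ∈ Icc a b := mem_nhdsWithin_of_mem_nhds (Icc_mem_nhds ht0.1 ht0.2)
  have htend : Tendsto y (𝓝[≠] t0) (𝓝[≠] (y t0)) := by
    refine tendsto_nhdsWithin_iff.2 ⟨((hy t0 ht0').continuousAt).tendsto.mono_left nhdsWithin_le_nhds, ?_⟩
    filter_upwards [hmem, self_mem_nhdsWithin] with t h1 h2 h3
    apply h2
    have h4 : y t = y t0 := h3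
    show t = t0
    rw [← hj t h1, ← hj t0 ht0', h4]
  have hfreq : ∃ᶠ x in 𝓝[≠] (y t0), MvPolynomial.eval (wl c s x) (QL R) = 0 := by
    refine htend.frequently ?_
    refine Eventually.frequently ?_
    filter_upwards [hmem] with t ht using hval t ht
  have hQ : QL R = 0 := indep_line h _ (y t0) (hpos t0 ht0') hfreq
  funext e
  have hRe : R e = 0 := by
    refine Polynomial.funext fun r => ?_
    have hS : (∑ e, MvPolynomial.monomial (emb e) ((R e).eval r) : MvPolynomial (Fin 4) ℝ) = 0 := by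
      refine MvPolynomial.funext fun w => ?_
      have h1 := QL_eval R ![w 0, w 1, r, w 2, w 3]
      rw [hQ, map_zero] at h1
      rw [map_sum, map_zero, h1]
      refine Finset.sum_congr rfl fun e _ => ?_
      rw [MvPolynomial.eval_monomial, Finsupp.prod_fintype _ _ (by simp), Fin.prod_univ_four]
      rfl
    have h3 := congrArg (MvPolynomial.coeff (emb e)) hS
    rw [MvPolynomial.coeff_sum, MvPolynomial.coeff_zero, Finset.sum_eq_single e] at h3
    · rw [MvPolynomial.coeff_monomial, if_pos rfl] at h3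
      rw [h3, eval_zero]
    · intro e' _ he
      rw [MvPolynomial.coeff_monomial, if_neg]
      intro h
      exact he (emb_inj h)
    · intro h
      exact absurd (Finset.mem_univ _) h
  rw [hR] at hRe
  rcases Polynomial.comp_eq_zero_iff.1 hRe with h | h
  · exact h
  · exfalso
    rw [h.2, natDegree_C] at hψ
    exact lt_irrefl _ hψ

end Pool.Agent.TH828.MJ
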