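import Pool.Agent.TH21.MS.Mahler

/-!
# `x`, `y`, `j'`, `j''` as functions of `t = ψ (j)`

From the algebraic independence of `x`, `log x`, `J`, `D J`, `D² J` (`Pool.Agent.TH21.MS.Mahler`): if `y` is a real
analytic function of `t` with `ψ (j (i y (t))) = t`, then `exp (-2π y (t))`, `y (t)`, `j' (i y (t))`, `j'' (i y (t))`
are algebraically independent over `ℝ[t]`.
-/

set_option autoImplicit false

open Set Filter Topology Polynomial

namespace Pool.Agent.TH828.MJ

open Pool.Agent.TH21.MS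

/-- values of a polynomial through its coefficients -/
theorem eval_eq {κ : Type} [Fintype κ] [DecidableEq κ] {d : ℕ} (x : κ → ℝ) (P : MvPolynomial κ ℝ)
    (hP : ∀ k, P.degreeOf k ≤ d) :
    MvPolynomial.eval x P = ∑ e : κ → Fin (d + 1), P.coeff (emb e) * ∏ k, x k ^ (e k : ℕ) := by
  rw [MvPolynomial.eval_eq']
  have h0 : ∑ e : κ → Fin (d + 1), P.coeff (emb e) * ∏ k, x k ^ (e k : ℕ) =
      ∑ u ∈ Finset.univ.image (emb (κ := κ) (d := d)), P.coeff u * ∏ k, x k ^ (u k) := by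
    rw [Finset.sum_image (fun a _ b _ hab => emb_inj hab)]
    rfl
  rw [h0]
  refine Finset.sum_subset ?_ ?_
  · intro u hu
    rw [Finset.mem_image]
    have hle : ∀ k, u k < d + 1 := fun k =>
      Nat.lt_succ_of_le ((MvPolynomial.monomial_le_degreeOf k hu).trans (hP k))
    exact ⟨fun k => ⟨u k, hle k⟩, Finset.mem_univ _, by ext k; rfl⟩
  · intro u _ hu
    rw [MvPolynomial.notMem_support_iff] at hu
    rw [hu, zero_mul]

theorem aeval_eval {κ : Type} (x : κ → ℝ) (P : MvPolynomial κ ℝ) :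
    MvPolynomial.aeval x P = MvPolynomial.eval x P := rfl

/-- `x`, `log x`, `J`, `D J`, `D² J` -/
noncomputable def five (x : ℝ) : Fin 5 → ℝ := Fin.cons x fun i => fJ i x

/-- Mahler's theorem for real polynomials in five variables -/
theorem mahlerMv (P : MvPolynomial (Fin 5) ℝ)
    (h : ∀ x ∈ Ioo (0 : ℝ) 1, MvPolynomial.eval (five x) P = 0) : P = 0 := by
  classical
  obtain ⟨d, hd⟩ : ∃ d, ∀ k, P.degreeOf k ≤ d :=
    ⟨P.totalDegree, fun k => MvPolynomial.degreeOf_le_totalDegree P k⟩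
  have h1 := mahler_zero (d := d)
    (fun f => ∑ k : Fin (d + 1), monomial (k : ℕ) (P.coeff (emb (Fin.cons k f : Fin 5 → Fin (d + 1))))) (by
    intro x hx
    have h2 := h x hx
    rw [eval_eq _ P hd] at h2
    unfold SM
    have h5 : ∑ z : Fin (d + 1) × (Fin 4 → Fin (d + 1)),
        P.coeff (emb (Fin.cons z.1 z.2 : Fin 5 → Fin (d + 1))) *
          ∏ k, five x k ^ ((Fin.cons z.1 z.2 : Fin 5 → Fin (d + 1)) k : ℕ) =
        ∑ e : Fin 5 → Fin (d + 1), P.coeff (emb e) * ∏ k, five x k ^ (e k : ℕ) :=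
      Equiv.sum_comp (Fin.consEquiv (fun _ : Fin 5 => Fin (d + 1)))
        (fun e : Fin 5 → Fin (d + 1) => P.coeff (emb e) * ∏ k, five x k ^ (e k : ℕ))
    rw [← h2, ← h5, Fintype.sum_prod_type, Finset.sum_comm]
    refine Finset.sum_congr rfl fun f _ => ?_
    rw [Polynomial.eval_finsetSum, Finset.sum_mul]
    refine Finset.sum_congr rfl fun k _ => ?_
    rw [eval_monomial]
    conv_rhs => rw [Fin.prod_univ_succ]
    show _ = P.coeff (emb (Fin.cons k f : Fin 5 → Fin (d + 1))) *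
      (x ^ (k : ℕ) * ∏ i : Fin 4, fJ i x ^ (f i : ℕ))
    ring)
  ext u
  rw [MvPolynomial.coeff_zero]
  by_contra hne
  have hu : u ∈ P.support := MvPolynomial.mem_support_iff.2 hne
  have hle : ∀ k, u k < d + 1 := fun k =>
    Nat.lt_succ_of_le ((MvPolynomial.monomial_le_degreeOf k hu).trans (hd k))
  have h2 := congrFun h1 (fun k => ⟨u k.succ, hle k.succ⟩)
  have h3 : emb (Fin.cons (⟨u 0, hle 0⟩ : Fin (d + 1)) (fun k : Fin 4 => (⟨u k.succ, hle k.succ⟩ : Fin (d + 1))) :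
      Fin 5 → Fin (d + 1)) = u := by
    ext k
    refine Fin.cases ?_ (fun i => ?_) k
    · rfl
    · rfl
  have h4 := congrArg (fun q : ℝ[X] => q.coeff (u 0)) h2
  simp only [Pi.zero_apply, coeff_zero, finsetSum_coeff, coeff_monomial] at h4
  rw [Finset.sum_eq_single (⟨u 0, hle 0⟩ : Fin (d + 1))] at h4
  · rw [if_pos rfl, h3] at h4
    exact hne h4
  · intro k _ hk
    rw [if_neg]
    intro h5
    exact hk (Fin.ext h5)
  · intro h5
    exact absurd (Finset.mem_univ _) h5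

/-- the functions `exp (-2π y (t))`, `y (t)`, `g1 (y (t))`, `g2 (y (t))` -/
noncomputable def uu (y : ℝ → ℝ) : Fin 4 → ℝ → ℝ := ![fun t => xx (y t), y, fun t => g1 (y t), fun t => g2 (y t)]

/-- the relation as a polynomial in the five functions -/
noncomputable def QQ {d : ℕ} (R : (Fin 4 → Fin (d + 1)) → ℝ[X]) : MvPolynomial (Fin 5) ℝ :=
  ∑ e, (Polynomial.aeval (MvPolynomial.X 2 : MvPolynomial (Fin 5) ℝ) (R e)) *
    (MvPolynomial.X 0 ^ (e 0 : ℕ) *
     (MvPolynomial.C (-1 / (2 * Real.pi)) * MvPolynomial.X 1) ^ (e 1 : ℕ) *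
     (MvPolynomial.C (-(2 * Real.pi)) * MvPolynomial.X 3) ^ (e 2 : ℕ) *
     (MvPolynomial.C ((2 * Real.pi) ^ 2) * MvPolynomial.X 4) ^ (e 3 : ℕ))

theorem QQ_eval {d : ℕ} (R : (Fin 4 → Fin (d + 1)) → ℝ[X]) (v : Fin 5 → ℝ) :
    MvPolynomial.eval v (QQ R) = ∑ e, (R e).eval (v 2) *
      (v 0 ^ (e 0 : ℕ) * (-1 / (2 * Real.pi) * v 1) ^ (e 1 : ℕ) * (-(2 * Real.pi) * v 3) ^ (e 2 : ℕ) *
        ((2 * Real.pi) ^ 2 * v 4) ^ (e 3 : ℕ)) := by
  unfold QQ
  rw [map_sum]
  refine Finset.sum_congr rfl fun e _ => ?_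
  have h1 : MvPolynomial.eval v (Polynomial.aeval (MvPolynomial.X 2 : MvPolynomial (Fin 5) ℝ) (R e)) =
      (R e).eval (v 2) := by
    have h2 : MvPolynomial.aeval v (Polynomial.aeval (MvPolynomial.X 2 : MvPolynomial (Fin 5) ℝ) (R e)) =
        Polynomial.aeval (v 2) (R e) := by
      rw [← Polynomial.aeval_algHom_apply, MvPolynomial.aeval_X]
    rw [aeval_eval, Polynomial.coe_aeval_eq_eval] at h2
    exact h2
  simp only [map_mul, map_pow, h1, MvPolynomial.eval_C, MvPolynomial.eval_X]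

theorem rind (ψ : ℝ[X]) (hψ : 0 < ψ.natDegree) (a b : ℝ) (hab : a < b) (y : ℝ → ℝ)
    (hy : AnalyticOnNhd ℝ y (Icc a b)) (hpos : ∀ t ∈ Icc a b, 0 < y t)
    (hj : ∀ t ∈ Icc a b, ψ.eval (g0 (y t)) = t) (d : ℕ) :
    TH818.AP.RIndep (fun (e : Fin 4 → Fin (d + 1)) (t : ℝ) => ∏ k, uu y k t ^ (e k : ℕ)) a b := by
  classical
  intro p hp
  have hpi := Real.pi_pos
  obtain ⟨R, hR⟩ : ∃ R : (Fin 4 → Fin (d + 1)) → ℝ[X], ∀ e, R e = (p e).comp ψ :=
    ⟨fun e => (p e).comp ψ, fun _ => rfl⟩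
  have hval : ∀ t ∈ Icc a b, MvPolynomial.eval (five (xx (y t))) (QQ R) = 0 := by
    intro t ht
    rw [QQ_eval, ← hp t ht]
    refine Finset.sum_congr rfl fun e _ => ?_
    have e1 : five (xx (y t)) 1 = -(2 * Real.pi) * y t := by
      show Real.log (xx (y t)) = _
      unfold xx
      rw [Real.log_exp]
      ring
    have e0 : five (xx (y t)) 0 = xx (y t) := rfl
    have e2 : five (xx (y t)) 2 = g0 (y t) := rfl
    have e3 : five (xx (y t)) 3 = -(g1 (y t)) / (2 * Real.pi) := rfl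
    have e4 : five (xx (y t)) 4 = g2 (y t) / (2 * Real.pi) ^ 2 := rfl
    show _ = (p e).eval t * ∏ k, uu y k t ^ (e k : ℕ)
    rw [e0, e1, e2, e3, e4, hR, eval_comp, hj t ht, Fin.prod_univ_four]
    have f0 : -1 / (2 * Real.pi) * (-(2 * Real.pi) * y t) = y t := by field_simp
    have f1 : -(2 * Real.pi) * (-(g1 (y t)) / (2 * Real.pi)) = g1 (y t) := by field_simp
    have f2 : (2 * Real.pi) ^ 2 * (g2 (y t) / (2 * Real.pi) ^ 2) = g2 (y t) := by field_simp
    rw [f0, f1, f2]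
    rfl
  have hfan : ∀ x ∈ Ioo (0 : ℝ) 1, ∀ i, AnalyticAt ℝ (fun x => five x i) x := by
    intro x hx i
    refine Fin.cases ?_ (fun i => ?_) i
    · exact analyticAt_id
    · exact fJ_an i x hx
  have han : AnalyticOnNhd ℝ (fun x => MvPolynomial.eval (five x) (QQ R)) (Ioo 0 1) := by
    intro x hx
    have h1 := AnalyticAt.aeval_mvPolynomial (𝕜 := ℝ) (f := fun x i => five x i) (z := x)
      (fun i => hfan x hx i) (QQ R)
    exact h1
  obtain ⟨t0, ht0⟩ : ∃ t0, t0 ∈ Ioo a b := ⟨(a + b) / 2, by constructor <;> linarith⟩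
  have ht0' : t0 ∈ Icc a b := Ioo_subset_Icc_self ht0
  have hcont : ContinuousAt (fun t => xx (y t)) t0 := by
    have h1 : ContinuousAt y t0 := (hy t0 ht0').continuousAt
    have h2 : ContinuousAt xx (y t0) := (xx_an (y t0) (mem_univ _)).continuousAt
    exact ContinuousAt.comp (f := y) (g := xx) h2 h1
  have hmem : ∀ᶠ t in 𝓝[≠] t0, t ∈ Icc a b := mem_nhdsWithin_of_mem_nhds (Icc_mem_nhds ht0.1 ht0.2)
  have htend : Tendsto (fun t => xx (y t)) (𝓝[≠] t0) (𝓝[≠] (xx (y t0))) := by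
    refine tendsto_nhdsWithin_iff.2 ⟨hcont.tendsto.mono_left nhdsWithin_le_nhds, ?_⟩
    filter_upwards [hmem, self_mem_nhdsWithin] with t h1 h2 h3
    apply h2
    have h4 : y t = y t0 := by
      have h5 : -(2 * Real.pi * y t) = -(2 * Real.pi * y t0) := Real.exp_injective h3
      have h6 : (2 * Real.pi) * (y t - y t0) = 0 := by linarith
      rcases mul_eq_zero.1 h6 with h7 | h7
      · exact absurd h7 (by positivity)
      · linarith
    show t = t0
    rw [← hj t h1, ← hj t0 ht0', h4]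
  have hfreq : ∃ᶠ x in 𝓝[≠] (xx (y t0)), MvPolynomial.eval (five x) (QQ R) = 0 := by
    refine htend.frequently ?_
    refine Eventually.frequently ?_
    filter_upwards [hmem] with t ht using hval t ht
  have hzero := han.eqOn_zero_of_preconnected_of_frequently_eq_zero isPreconnected_Ioo
    (show xx (y t0) ∈ Ioo (0 : ℝ) 1 from ⟨xx_pos _, xx_lt (hpos t0 ht0')⟩) hfreq
  have hQ : QQ R = 0 := mahlerMv _ fun x hx => hzero hx
  funext e
  have hRe : R e = 0 := by
    refine Polynomial.funext fun r => ?_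
    have hS : (∑ e, MvPolynomial.monomial (emb e) ((R e).eval r) : MvPolynomial (Fin 4) ℝ) = 0 := by
      refine MvPolynomial.funext fun w => ?_
      have h1 := QQ_eval R ![w 0, -(2 * Real.pi) * w 1, r, w 2 / (-(2 * Real.pi)), w 3 / (2 * Real.pi) ^ 2]
      rw [hQ, map_zero] at h1
      rw [map_sum, map_zero, h1]
      refine Finset.sum_congr rfl fun e _ => ?_
      rw [MvPolynomial.eval_monomial, Finsupp.prod_fintype _ _ (by simp), Fin.prod_univ_four]
      show _ = (R e).eval r * (w 0 ^ (e 0 : ℕ) * (-1 / (2 * Real.pi) * (-(2 * Real.pi) * w 1)) ^ (e 1 : ℕ) *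
        (-(2 * Real.pi) * (w 2 / (-(2 * Real.pi)))) ^ (e 2 : ℕ) *
        ((2 * Real.pi) ^ 2 * (w 3 / (2 * Real.pi) ^ 2)) ^ (e 3 : ℕ))
      have f0 : -1 / (2 * Real.pi) * (-(2 * Real.pi) * w 1) = w 1 := by field_simp
      have f1 : -(2 * Real.pi) * (w 2 / (-(2 * Real.pi))) = w 2 := by field_simp
      have f2 : (2 * Real.pi) ^ 2 * (w 3 / (2 * Real.pi) ^ 2) = w 3 := by field_simp
      rw [f0, f1, f2]
      rfl
    have h3 := congrArg (MvPolynomial.coeff (emb e)) hS
    rw [MvPolynomial.coeff_sum, MvPolynomial.coeff_zero, Finset.sum_eq_single e] at h3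
    · rw [MvPolynomial.coeff_monomial, if_pos rfl] at h3
      rw [h3, eval_zero]
    · intro e' _ he
      rw [MvPolynomial.coeff_monomial, if_neg]
      intro h
      exact he (emb_inj h)
    · intro h
      exact absurd (Finset.mem_univ _) h
  rw [hR] at hRe
  rcases Polynomial.comp_eq_zero_iff.1 hRe with h | h
  · exact h
  · exfalso
    rw [h.2, natDegree_C] at hψ
    exact lt_irrefl _ hψ

end Pool.Agent.TH828.MJ
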